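import Mathlib

namespace Pool.Agent.Results.MP_89b943_al.BlockSplits

section
variable {K V : Type} [Field K] [AddCommGroup V] [Module K V] (μ : V →ₗ[K] V →ₗ[K] V)

/-- the sum of the eigenspaces of multiplication by a, for eigenvalues in S -/
def eig (a : V) (S : Set K) : Submodule K V := ⨆ l ∈ S, Module.End.eigenspace (μ a) l

/-- primitive axes for the fusion law (F, st) -/
def PrimAxis (F : Set K) (st : K → K → Set K) (a : V) : Prop :=
  μ a a = a ∧ eig μ a F = ⊤ ∧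
  (∀ l ∈ F, ∀ m ∈ F, ∀ u ∈ eig μ a {l}, ∀ v ∈ eig μ a {m}, μ u v ∈ eig μ a (st l m)) ∧
  eig μ a {1} = Submodule.span K {a}

/-- I is an ideal of the algebra B -/
def IdealIn (B I : Submodule K V) : Prop := I ≤ B ∧ ∀ x ∈ B, ∀ y ∈ I, μ x y ∈ I

/-- the ideal generated by a -/
def block (a : V) : Submodule K V := sInf {I | IdealIn μ ⊤ I ∧ a ∈ I}
end

abbrev V := Fin 4 → ℚ

def mu : V →ₗ[ℚ] V →ₗ[ℚ] V := LinearMap.mk₂ ℚ
  (fun x y => ![x 0 * y 0, x 1 * y 1,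
    x 0 * y 1 + x 1 * y 0 + 2 * (x 0 * y 2 + x 2 * y 0) + 4 * (x 1 * y 3 + x 3 * y 1),
    x 1 * y 2 + x 2 * y 1])
  (by intros; ext i; fin_cases i <;> simp <;> ring) (by intros; ext i; fin_cases i <;> simp <;> ring)
  (by intros; ext i; fin_cases i <;> simp <;> ring) (by intros; ext i; fin_cases i <;> simp <;> ring)

lemma mu_apply (x y : V) : mu x y = ![x 0 * y 0, x 1 * y 1,
    x 0 * y 1 + x 1 * y 0 + 2 * (x 0 * y 2 + x 2 * y 0) + 4 * (x 1 * y 3 + x 3 * y 1),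
    x 1 * y 2 + x 2 * y 1] := rfl

lemma mem_eig (a : V) (S : Set ℚ) (l : ℚ) (hl : l ∈ S) (x : V) (h : mu a x = l • x) :
    x ∈ eig mu a S :=
  (le_iSup₂_of_le l hl le_rfl : Module.End.eigenspace (mu a) l ≤ eig mu a S)
    (Module.End.mem_eigenspace_iff.mpr h)

lemma axis (a : V) (h1 : mu a a = a) (h2 : eig mu a {1, 2, 0, -2} = ⊤)
    (h3 : ∀ x, mu a x = x → ∃ c : ℚ, c • a = x) :
    PrimAxis mu {1, 2, 0, -2} (fun _ _ => {1, 2, 0, -2}) a := by
  refine ⟨h1, h2, fun _ _ _ _ _ _ _ _ => by rw [h2]; trivial, ?_⟩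
  ext x
  simp only [eig, Set.mem_singleton_iff, iSup_iSup_eq_left, Module.End.mem_eigenspace_iff, one_smul,
    Submodule.mem_span_singleton]
  refine ⟨h3 x, ?_⟩
  rintro ⟨c, rfl⟩
  rw [map_smul, h1]

def co (i : Fin 4) : Submodule ℚ V := LinearMap.ker (LinearMap.proj i : V →ₗ[ℚ] ℚ)

lemma mem_co (i : Fin 4) (x : V) : x ∈ co i ↔ x i = 0 := Iff.rfl

lemma dec (x : V) : x = x 0 • ![1, 0, 0, 0] + x 1 • ![0, 1, 0, 0] + x 2 • ![0, 0, 1, 0] +
    x 3 • ![0, 0, 0, 1] := by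
  ext i; fin_cases i <;> simp

lemma e2 : mu ![1, 0, 0, 0] ![0, 1, 0, 0] = ![0, 0, 1, 0] := by
  ext i; fin_cases i <;> simp [mu_apply]

lemma e2' : mu ![0, 1, 0, 0] ![1, 0, 0, 0] = ![0, 0, 1, 0] := by
  ext i; fin_cases i <;> simp [mu_apply]

lemma e3 : mu ![0, 1, 0, 0] ![0, 0, 1, 0] = ![0, 0, 0, 1] := by
  ext i; fin_cases i <;> simp [mu_apply]

lemma blk : block mu ![1, 0, 0, 0] = co 1 := by
  apply le_antisymm
  · refine sInf_le ⟨⟨le_top, fun x _ y hy => ?_⟩, rfl⟩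
    rw [mem_co] at hy ⊢
    simp [mu_apply, hy]
  · refine le_sInf fun I ⟨⟨_, hI⟩, ha⟩ x hx => ?_
    have h2 := hI ![0, 1, 0, 0] trivial _ ha
    rw [e2'] at h2
    have h3 := hI ![0, 1, 0, 0] trivial _ h2
    rw [e3] at h3
    rw [dec x, (mem_co 1 x).mp hx, zero_smul, add_zero]
    exact I.add_mem (I.add_mem (I.smul_mem _ ha) (I.smul_mem _ h2)) (I.smul_mem _ h3)

/-- A primitive axial algebra with a decomposable block. -/
theorem result : ∃ (μ : (Fin 4 → ℚ) →ₗ[ℚ] (Fin 4 → ℚ) →ₗ[ℚ] (Fin 4 → ℚ)) (F : Set ℚ)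
    (st : ℚ → ℚ → Set ℚ) (X : Set (Fin 4 → ℚ)),
    (∀ x y, μ x y = μ y x) ∧ 1 ∈ F ∧ (∀ l m, st l m ⊆ F) ∧ (∀ a ∈ X, PrimAxis μ F st a) ∧
    (∀ S : Submodule ℚ (Fin 4 → ℚ), X ⊆ S → (∀ x ∈ S, ∀ y ∈ S, μ x y ∈ S) → S = ⊤) ∧
    ∃ a ∈ X, block μ a = sSup {I | IdealIn μ (block μ a) I ∧ I ≠ block μ a} := by
  refine ⟨mu, {1, 2, 0, -2}, fun _ _ => {1, 2, 0, -2}, {![1, 0, 0, 0], ![0, 1, 0, 0]},
    fun x y => ?_, by simp, fun _ _ => le_rfl, ?_, fun S hX hS => ?_, ![1, 0, 0, 0], by simp, ?_⟩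
  · ext i; fin_cases i <;> simp [mu_apply] <;> ring
  · rintro a (rfl | rfl)
    · refine axis _ (by ext i; fin_cases i <;> simp [mu_apply]) (eq_top_iff.mpr fun x _ => ?_)
        fun x hx => ⟨x 0, ?_⟩
      · have : x = ![x 0, 0, 0, 0] + ![0, 0, x 2 + x 1 / 2, 0] + ![0, x 1, -(x 1 / 2), x 3] := by
          ext i; fin_cases i <;> simp
        rw [this]
        refine add_mem (add_mem (mem_eig _ _ 1 (by simp) _ ?_) (mem_eig _ _ 2 (by simp) _ ?_))
          (mem_eig _ _ 0 (by simp) _ ?_) <;> ext i <;> fin_cases i <;> simp [mu_apply] <;> ring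
      · have h1 := congrFun hx 1
        have h2 := congrFun hx 2
        have h3 := congrFun hx 3
        simp [mu_apply] at h1 h2 h3
        ext i; fin_cases i <;> simp <;> linarith
    · refine axis _ (by ext i; fin_cases i <;> simp [mu_apply]) (eq_top_iff.mpr fun x _ => ?_)
        fun x hx => ⟨x 1, ?_⟩
      · have : x = ![0, x 1, 0, 0] + ![x 0, 0, 0, -(x 0 / 4)] +
            ![0, 0, x 2 / 2 + x 3 + x 0 / 4, x 2 / 4 + x 3 / 2 + x 0 / 8] +
            ![0, 0, x 2 / 2 - x 3 - x 0 / 4, -(x 2 / 4) + x 3 / 2 + x 0 / 8] := by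
          ext i; fin_cases i <;> simp <;> ring
        rw [this]
        refine add_mem (add_mem (add_mem (mem_eig _ _ 1 (by simp) _ ?_)
          (mem_eig _ _ 0 (by simp) _ ?_)) (mem_eig _ _ 2 (by simp) _ ?_))
          (mem_eig _ _ (-2) (by simp) _ ?_) <;> ext i <;> fin_cases i <;> simp [mu_apply] <;> ring
      · have h0 := congrFun hx 0
        have h2 := congrFun hx 2
        have h3 := congrFun hx 3
        simp [mu_apply] at h0 h2 h3
        ext i; fin_cases i <;> simp <;> linarith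
  · have ha : ![1, 0, 0, 0] ∈ S := hX (by simp)
    have hb : ![0, 1, 0, 0] ∈ S := hX (by simp)
    have h2 := hS _ ha _ hb
    rw [e2] at h2
    have h3 := hS _ hb _ h2
    rw [e3] at h3
    refine eq_top_iff.mpr fun x _ => ?_
    rw [dec x]
    exact S.add_mem (S.add_mem (S.add_mem (S.smul_mem _ ha) (S.smul_mem _ hb)) (S.smul_mem _ h2))
      (S.smul_mem _ h3)
  · rw [blk]
    refine le_antisymm (fun x hx => ?_) (sSup_le fun I hI => hI.1.1)
    have : x = ![x 0, 0, x 2, 0] + ![0, 0, 0, x 3] := by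
      rw [mem_co] at hx
      ext i; fin_cases i <;> simp [hx]
    rw [this]
    have hA : IdealIn mu (co 1) (co 1 ⊓ co 3) ∧ co 1 ⊓ co 3 ≠ co 1 := by
      refine ⟨⟨inf_le_left, fun u hu v hv => ?_⟩, fun h => ?_⟩
      · simp only [Submodule.mem_inf, mem_co] at hu hv ⊢
        simp [mu_apply, hu, hv.1, hv.2]
      · have : (![0, 0, 0, 1] : V) ∈ co 1 := rfl
        rw [← h] at this
        simp [mem_co] at this
    have hB : IdealIn mu (co 1) (co 1 ⊓ co 0 ⊓ co 2) ∧ co 1 ⊓ co 0 ⊓ co 2 ≠ co 1 := by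
      refine ⟨⟨inf_le_left.trans inf_le_left, fun u hu v hv => ?_⟩, fun h => ?_⟩
      · simp only [Submodule.mem_inf, mem_co] at hu hv ⊢
        simp [mu_apply, hu, hv.1.1, hv.1.2, hv.2]
      · have : (![1, 0, 0, 0] : V) ∈ co 1 := rfl
        rw [← h] at this
        simp [mem_co] at this
    exact add_mem (Submodule.mem_sSup_of_mem hA (by simp [mem_co]))
      (Submodule.mem_sSup_of_mem hB (by simp [mem_co]))

end Pool.Agent.Results.MP_89b943_al.BlockSplits
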